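import Mathlib

set_option autoImplicit false

namespace Pool.Agent.H18.Tmr

open Matrix Finset

/-- the field with two elements -/
abbrev F := ZMod 2

lemma F_cases (x : F) : x = 0 ∨ x = 1 := by revert x; decide

/-- a low rank matrix has a small spanning set of rows -/
lemma exists_rows {n : ℕ} (M : Matrix (Fin n) (Fin n) F) :
    ∃ I : Finset (Fin n), I.card ≤ M.rank ∧
      ∀ i, ∃ c : Fin n → F, (∀ k, k ∉ I → c k = 0) ∧ ∀ j, M i j = ∑ k, c k * M k j := by
  classical
  obtain ⟨g, hg, hspan, -⟩ := Submodule.exists_fun_fin_finrank_span_eq F (Set.range M.row)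
  choose a ha using hg
  refine ⟨univ.image a, ?_, ?_⟩
  · rw [rank_eq_finrank_span_row]
    exact card_image_le.trans (by simp)
  · intro i
    have hi : M.row i ∈ Submodule.span F (Set.range g) := by
      rw [hspan]; exact Submodule.subset_span ⟨i, rfl⟩
    rw [Submodule.mem_span_range_iff_exists_fun] at hi
    obtain ⟨c, hc⟩ := hi
    refine ⟨fun k => ∑ l with a l = k, c l, ?_, ?_⟩
    · intro k hk
      apply Finset.sum_eq_zero
      intro l hl
      exact absurd (mem_image.2 ⟨l, mem_univ _, (mem_filter.1 hl).2⟩) hk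
    · intro j
      have h1 : M i j = ∑ l, c l * M (a l) j := by
        have := congrFun hc j
        simp only [Finset.sum_apply, Pi.smul_apply, smul_eq_mul] at this
        rw [show M i j = M.row i j from rfl, ← this]
        refine Finset.sum_congr rfl fun l _ => ?_
        rw [← ha l]; rfl
      rw [h1]
      simp only [Finset.sum_mul]
      rw [← Finset.sum_fiberwise (s := univ) (g := a) (f := fun l => c l * M (a l) j)]
      refine Finset.sum_congr rfl fun k _ => Finset.sum_congr rfl fun l hl => ?_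
      rw [(mem_filter.1 hl).2]

/-- rows in `I` span all rows -/
def Spans {n : ℕ} (M : Matrix (Fin n) (Fin n) F) (I : Finset (Fin n)) : Prop :=
  ∀ i, ∃ c : Fin n → F, (∀ k, k ∉ I → c k = 0) ∧ ∀ j, M i j = ∑ k, c k * M k j

lemma eq_of_spans {n : ℕ} {M M' : Matrix (Fin n) (Fin n) F} {I : Finset (Fin n)}
    (hM : M.IsSymm) (hM' : M'.IsSymm) (h : Spans M I) (h' : Spans M' I)
    (hI : ∀ k ∈ I, ∀ j, M k j = M' k j) : M = M' := by
  ext i j
  obtain ⟨c, hc0, hc⟩ := h i
  obtain ⟨d, hd0, hd⟩ := h' j
  have e1 : ∀ (c : Fin n → F), (∀ k, k ∉ I → c k = 0) → ∀ k j, c k * M k j = c k * M' k j := by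
    intro c hc0 k j
    by_cases hk : k ∈ I
    · rw [hI k hk]
    · simp [hc0 k hk]
  have s1 : ∀ a b, M a b = M b a := fun a b => (hM.apply a b).symm
  have s2 : ∀ a b, M' a b = M' b a := fun a b => (hM'.apply a b).symm
  calc M i j = ∑ k, c k * M k j := hc j
    _ = ∑ k, c k * ∑ l, d l * M' l k := by
        refine Finset.sum_congr rfl fun k _ => ?_
        rw [e1 c hc0, s2 k j, hd k]
    _ = ∑ k, ∑ l, c k * (d l * M l k) := by
        refine Finset.sum_congr rfl fun k _ => ?_
        rw [Finset.mul_sum]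
        refine Finset.sum_congr rfl fun l _ => ?_
        rw [e1 d hd0]
    _ = ∑ l, ∑ k, d l * (c k * M k l) := by
        rw [Finset.sum_comm]
        refine Finset.sum_congr rfl fun k _ => Finset.sum_congr rfl fun l _ => ?_
        rw [s1 k l]; ring
    _ = ∑ l, d l * M' l i := by
        refine Finset.sum_congr rfl fun l _ => ?_
        rw [← Finset.mul_sum, ← hc l, ← e1 d hd0, s1 i l]
    _ = M' i j := by rw [← hd i, s2]

/-- the tournament read off the matrix `A` -/
def Tn {n : ℕ} (A : Matrix (Fin n) (Fin n) F) (u v : Fin n) : Prop :=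
  (u < v ∧ A u v = 0) ∨ (v < u ∧ A u v = 1)

lemma Tn_irrefl {n : ℕ} (A : Matrix (Fin n) (Fin n) F) (u : Fin n) : ¬ Tn A u u := by
  simp [Tn]

lemma Tn_tour {n : ℕ} {A : Matrix (Fin n) (Fin n) F} (hA : A.IsSymm) (u v : Fin n) (h : u ≠ v) :
    Tn A u v ↔ ¬ Tn A v u := by
  have s : A v u = A u v := hA.apply u v
  unfold Tn
  rw [s]
  rcases lt_or_gt_of_ne h with h | h <;> rcases F_cases (A u v) with h' | h' <;>
    simp [h, h', not_lt_of_gt h]

/-- `M` decycles the tournament of `A` -/
def Dec {n : ℕ} (A M : Matrix (Fin n) (Fin n) F) (f : Fin n → ℕ) : Prop :=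
  ∀ u v, u ≠ v → (Tn A u v ↔ M u v = 0) → f u < f v

lemma dec_entry {n : ℕ} {A M : Matrix (Fin n) (Fin n) F} {f : Fin n → ℕ} (hA : A.IsSymm)
    (hM : M.IsSymm) (h : Dec A M f) {u v : Fin n} (huv : u < v) :
    M u v = A u v + if f u < f v then 0 else 1 := by
  have h1 := h u v huv.ne
  have h2 := h v u huv.ne'
  have s1 : A v u = A u v := hA.apply u v
  have s2 : M v u = M u v := hM.apply u v
  unfold Tn at h1 h2
  rw [s1, s2] at h2
  have hn : ¬ v < u := not_lt_of_gt huv
  rcases F_cases (A u v) with ha | ha <;> rcases F_cases (M u v) with hm | hm <;>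
    simp only [ha, hm, huv, hn] at h1 h2 ⊢
  · simp at h1; simp [h1]
  · simp at h2; simp [not_lt_of_gt h2]
  · simp at h2; simp [not_lt_of_gt h2]; decide
  · simp at h1; simp [h1]

/-- tournament minimum rank at most `t` -/
def Bad {n : ℕ} (t : ℕ) (A : Matrix (Fin n) (Fin n) F) : Prop :=
  ∃ M : Matrix (Fin n) (Fin n) F, M.IsSymm ∧ M.rank ≤ t ∧ ∃ f, Dec A M f

lemma exists_rank_fun {n : ℕ} (f : Fin n → ℕ) :
    ∃ g : Fin n → Fin (n + 1), ∀ u v, f u < f v ↔ g u < g v := by
  classical
  refine ⟨fun u => ⟨(univ.filter fun w => f w < f u).card, ?_⟩, fun u v => ?_⟩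
  · exact Nat.lt_succ_of_le ((card_filter_le _ _).trans (by simp))
  · simp only [Fin.mk_lt_mk]
    constructor
    · intro h
      apply card_lt_card
      refine ⟨fun w hw => ?_, fun hh => ?_⟩
      · simp only [mem_filter, mem_univ, true_and] at hw ⊢; omega
      · have := hh (x := u) (by simpa using h)
        simp at this
    · intro h
      by_contra hc
      have : (univ.filter fun w => f w < f v) ⊆ (univ.filter fun w => f w < f u) := by
        intro w hw
        simp only [mem_filter, mem_univ, true_and] at hw ⊢; omega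
      have := card_le_card this
      omega

/-- the counting bound -/
theorem card_bad {n t : ℕ} {ι : Type} (S : Finset ι) (a : ι → Matrix (Fin n) (Fin n) F)
    (hs : ∀ i ∈ S, (a i).IsSymm) (hb : ∀ i ∈ S, Bad t (a i))
    (hinj : ∀ i ∈ S, ∀ j ∈ S, (∀ u v, u < v → a i u v = a j u v) → i = j) :
    S.card ≤ (n + 1) ^ n * 2 ^ n * 2 ^ n * 2 ^ (n.choose 2 - (n - t).choose 2) := by
  classical
  have key : ∀ i ∈ S, ∃ (M : Matrix (Fin n) (Fin n) F) (g : Fin n → Fin (n + 1))
      (I : Finset (Fin n)), M.IsSymm ∧ I.card ≤ t ∧ Spans M I ∧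
      ∀ u v, u < v → M u v = a i u v + if g u < g v then 0 else 1 := by
    intro i hi
    obtain ⟨M, hM, hr, f, hf⟩ := hb i hi
    obtain ⟨I, hI, hsp⟩ := exists_rows M
    obtain ⟨g, hg⟩ := exists_rank_fun f
    refine ⟨M, g, I, hM, hI.trans hr, hsp, fun u v huv => ?_⟩
    rw [dec_entry (hs i hi) hM hf huv]
    simp only [hg]
  choose! M g I hM hI hsp hE using key
  let φ : ι → (Fin n → Fin (n + 1)) × Finset (Fin n) × (Fin n → F) :=
    fun i => (g i, I i, fun k => M i k k)
  have hfib : ∀ b ∈ S.image φ, (S.filter fun i => φ i = b).card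
      ≤ 2 ^ (n.choose 2 - (n - t).choose 2) := by
    intro b hb
    obtain ⟨i0, hi0, rfl⟩ := mem_image.1 hb
    set J := I i0 with hJ
    let Pm : Finset (Fin n × Fin n) := univ.filter fun p => p.1 < p.2 ∧ (p.1 ∈ J ∨ p.2 ∈ J)
    have hPm : Pm.card ≤ n.choose 2 - (n - t).choose 2 := by
      have h1 := Finset.card_product_filter_lt (s := (univ : Finset (Fin n)))
      have h2 := Finset.card_product_filter_lt (s := Jᶜ)
      have h3 : (n - t).choose 2 ≤ (Jᶜ.card).choose 2 := by
        apply Nat.choose_le_choose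
        rw [card_compl, Fintype.card_fin]
        have := hI i0 hi0
        rw [← hJ] at this
        omega
      have h4 : Pm.card + (filter (fun x : Fin n × Fin n => x.1 < x.2) (Jᶜ ×ˢ Jᶜ)).card
          ≤ (filter (fun x : Fin n × Fin n => x.1 < x.2) (univ ×ˢ univ)).card := by
        rw [← card_union_of_disjoint]
        · apply card_le_card
          intro p hp
          simp only [Pm, mem_union, mem_filter, mem_univ, true_and, mem_product] at hp ⊢
          rcases hp with hp | hp
          · exact hp.1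
          · exact hp.2
        · rw [disjoint_left]
          intro p hp hq
          simp only [Pm, mem_filter, mem_univ, true_and, mem_product, mem_compl] at hp hq
          tauto
      rw [h1, h2] at h4
      simp only [card_univ, Fintype.card_fin] at h4
      omega
    have hcard : (univ : Finset (Pm → F)).card = 2 ^ Pm.card := by simp [F]
    refine le_trans ?_ (Nat.pow_le_pow_right (by norm_num) hPm)
    rw [← hcard]
    apply card_le_card_of_injOn (fun i (p : Pm) => a i p.1.1 p.1.2) (fun _ _ => by simp)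
    intro i hi j hj hij
    simp only [coe_filter, Set.mem_ofPred_eq] at hi hj
    obtain ⟨hi, hi'⟩ := hi
    obtain ⟨hj, hj'⟩ := hj
    simp only [φ, Prod.mk.injEq] at hi' hj'
    have hgg : g i = g j := hi'.1.trans hj'.1.symm
    have hIi : I i = J := hi'.2.1
    have hIj : I j = J := hj'.2.1
    have hdd : ∀ k, M i k k = M j k k := fun k => congrFun (hi'.2.2.trans hj'.2.2.symm) k
    have hlt : ∀ u v, u < v → (u ∈ J ∨ v ∈ J) → M i u v = M j u v := by
      intro u v huv hm
      rw [hE i hi u v huv, hE j hj u v huv, hgg]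
      have := congrFun hij ⟨(u, v), by simp [Pm, huv, hm]⟩
      simp only at this
      rw [this]
    have hMM : M i = M j := by
      refine eq_of_spans (I := J) (hM i hi) (hM j hj) (hIi ▸ hsp i hi) (hIj ▸ hsp j hj) ?_
      intro k hk l
      rcases lt_trichotomy k l with h | h | h
      · exact hlt k l h (Or.inl hk)
      · subst h; exact hdd k
      · rw [← (hM i hi).apply k l, ← (hM j hj).apply k l]
        exact hlt l k h (Or.inr hk)
    apply hinj i hi j hj
    intro u v huv
    have e1 := hE i hi u v huv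
    have e2 := hE j hj u v huv
    rw [hMM, hgg, e2] at e1
    exact (add_right_cancel e1).symm
  have := card_le_mul_card_image S _ hfib
  refine this.trans ?_
  rw [mul_comm]
  apply Nat.mul_le_mul_right
  refine (card_le_univ _).trans ?_
  simp [F, mul_assoc]

end Pool.Agent.H18.Tmr
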