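import Pool.Agent.H18.Tmr.Main

set_option autoImplicit false

namespace Pool.Agent.H18.Tmr

open Matrix Finset

/-- vector form of `m` inversions making the digraph acyclic -/
def Good {V : Type} (Adj : V → V → Prop) (m : ℕ) : Prop :=
  ∃ x : V → Fin m → F, ∃ f : V → ℕ, ∀ u v,
    (Adj u v ∧ ∑ j, x u j * x v j = 0) ∨ (Adj v u ∧ ∑ j, x u j * x v j = 1) → f u < f v

/-- set form -/
def InvSet {V : Type} (Adj : V → V → Prop) : Set ℕ :=
  {m : ℕ | ∃ X : Fin m → Set V, ∃ f : V → ℕ, ∀ u v : V,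
        (Adj u v ∧ Even (Nat.card {j : Fin m // u ∈ X j ∧ v ∈ X j})) ∨
        (Adj v u ∧ Odd (Nat.card {j : Fin m // u ∈ X j ∧ v ∈ X j})) → f u < f v}

lemma card_cast {V : Type} {m : ℕ} (X : Fin m → Set V) (x : V → Fin m → F)
    (h : ∀ u j, u ∈ X j ↔ x u j = 1) (u v : V) :
    ((Nat.card {j : Fin m // u ∈ X j ∧ v ∈ X j} : ℕ) : F) = ∑ j, x u j * x v j := by
  classical
  rw [Nat.card_eq_fintype_card, Fintype.card_subtype, Finset.card_filter]
  push_cast
  refine Finset.sum_congr rfl fun j _ => ?_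
  rw [h, h]
  rcases F_cases (x u j) with a | a <;> rcases F_cases (x v j) with b | b <;> simp [a, b]

lemma mem_invSet {V : Type} (Adj : V → V → Prop) (m : ℕ) : m ∈ InvSet Adj ↔ Good Adj m := by
  classical
  constructor
  · rintro ⟨X, f, h⟩
    let x : V → Fin m → F := fun u j => if u ∈ X j then 1 else 0
    have hx : ∀ u j, u ∈ X j ↔ x u j = 1 := fun u j => by
      by_cases hh : u ∈ X j <;> simp [x, hh]
    refine ⟨x, f, fun u v huv => h u v ?_⟩
    rw [← ZMod.natCast_eq_zero_iff_even, ← ZMod.natCast_eq_one_iff_odd, card_cast X x hx]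
    exact huv
  · rintro ⟨x, f, h⟩
    refine ⟨fun j => {u | x u j = 1}, f, fun u v huv => h u v ?_⟩
    rw [← ZMod.natCast_eq_zero_iff_even, ← ZMod.natCast_eq_one_iff_odd,
      card_cast (fun j => {u | x u j = 1}) x (fun _ _ => Iff.rfl)] at huv
    exact huv

lemma bad_of_good {n m t : ℕ} {A : Matrix (Fin n) (Fin n) F} (hA : A.IsSymm)
    (h : Good (Tn A) m) (hm : m ≤ t) : Bad t A := by
  obtain ⟨x, f, h⟩ := h
  let X : Matrix (Fin n) (Fin m) F := Matrix.of x
  refine ⟨X * Xᵀ, by rw [Matrix.IsSymm, Matrix.transpose_mul, Matrix.transpose_transpose],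
    ((Matrix.rank_mul_le_left _ _).trans ((Matrix.rank_le_card_width _).trans (by simp))).trans hm,
    f, fun u v huv hh => h u v ?_⟩
  have e : (X * Xᵀ) u v = ∑ j, x u j * x v j := by simp [X, mul_apply]
  rw [e] at hh
  rw [Tn_tour hA v u huv.symm]
  rcases F_cases (∑ j, x u j * x v j) with a | a
  · exact Or.inl ⟨hh.2 a, a⟩
  · refine Or.inr ⟨fun hc => ?_, a⟩
    rw [hh.1 hc] at a
    exact zero_ne_one a

lemma good_step {n m : ℕ} {Adj Adj' : Fin n → Fin n → Prop} (a b : Fin n)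
    (hasym : ∀ u v, Adj u v → ¬ Adj v u) (hab : Adj a b)
    (hsub : ∀ u v, Adj u v → Adj' u v ∨ (u = a ∧ v = b))
    (h : Good Adj' m) : Good Adj (m + 1) := by
  classical
  obtain ⟨x, f, h⟩ := h
  have hne : a ≠ b := fun e => hasym a b hab (e ▸ e ▸ hab)
  let g : Fin n → ℕ := fun w => n * f w + w.1
  have hg : ∀ u v, f u < f v → g u < g v := by
    intro u v huv
    have h1 : n * (f u + 1) ≤ n * f v := Nat.mul_le_mul_left _ huv
    have := u.2
    simp only [g]
    nlinarith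
  have hginj : g a ≠ g b := by
    intro e
    have h1 : g a % n = g b % n := by rw [e]
    simp only [g, Nat.mul_add_mod, Nat.mod_eq_of_lt a.2, Nat.mod_eq_of_lt b.2] at h1
    exact hne (Fin.ext h1)
  let c : F := ∑ j, x a j * x b j + if g a < g b then 0 else 1
  let y : Fin n → F := fun w => if w = a ∨ w = b then c else 0
  have hcc : c * c = c := by rcases F_cases c with e | e <;> simp [e]
  have hy : ∀ u v, u ≠ v → ¬ (u = a ∧ v = b) → ¬ (u = b ∧ v = a) → y u * y v = 0 := by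
    intro u v huv h1 h2
    simp only [y]
    by_cases hu : u = a ∨ u = b
    · have : ¬ (v = a ∨ v = b) := by
        rintro (rfl | rfl) <;> rcases hu with rfl | rfl <;> simp_all
      simp [this]
    · simp [hu]
  have hya : y a = c := by simp [y]
  have hyb : y b = c := by simp [y]
  have hsym : ∑ j, x b j * x a j = ∑ j, x a j * x b j :=
    Finset.sum_congr rfl fun j _ => mul_comm _ _
  have h2 : ∀ z : F, z + z = 0 := by decide
  refine ⟨fun w => Fin.cons (y w) (x w), g, fun u v huv => ?_⟩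
  simp only [Fin.sum_univ_succ, Fin.cons_zero, Fin.cons_succ] at huv
  have hne' : u ≠ v := by
    rintro rfl
    rcases huv with h | h <;> exact hasym _ _ h.1 h.1
  by_cases e1 : u = a ∧ v = b
  · obtain ⟨rfl, rfl⟩ := e1
    rcases huv with hh | hh
    · rw [hya, hyb, hcc] at hh
      by_contra hc
      have := hh.2
      simp only [c, if_neg hc] at this
      rw [add_right_comm, h2, zero_add] at this
      exact one_ne_zero this
    · exact absurd hh.1 (hasym _ _ hab)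
  by_cases e2 : u = b ∧ v = a
  · obtain ⟨rfl, rfl⟩ := e2
    rcases huv with hh | hh
    · exact absurd hh.1 (hasym _ _ hab)
    · rw [hya, hyb, hcc, hsym] at hh
      by_contra hc
      have hc' : g v < g u := lt_of_le_of_ne (not_lt.1 hc) hginj
      have := hh.2
      simp only [c, if_pos hc'] at this
      rw [add_right_comm, h2, zero_add] at this
      exact zero_ne_one this
  rw [hy u v hne' e1 e2, zero_add] at huv
  apply hg
  apply h
  rcases huv with hh | hh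
  · exact Or.inl ⟨(hsub u v hh.1).resolve_right e1, hh.2⟩
  · exact Or.inr ⟨(hsub v u hh.1).resolve_right (fun e => e2 ⟨e.2, e.1⟩), hh.2⟩

lemma exists_sub {n t : ℕ} {Adj : Fin n → Fin n → Prop} (hasym : ∀ u v, Adj u v → ¬ Adj v u)
    (h : ∀ m ≤ t, ¬ Good Adj m) :
    ∃ D : Fin n → Fin n → Prop, (∀ u v, D u v → Adj u v) ∧ sInf (InvSet D) = t + 1 := by
  classical
  let S : Finset (Finset (Fin n × Fin n)) := univ.filter fun E =>
    (∀ p ∈ E, Adj p.1 p.2) ∧ ∀ m ≤ t, ¬ Good (fun u v => (u, v) ∈ E) m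
  have hS : S.Nonempty := by
    refine ⟨univ.filter fun p => Adj p.1 p.2, mem_filter.2 ⟨mem_univ _, fun p hp => (mem_filter.1 hp).2, ?_⟩⟩
    simpa using h
  obtain ⟨E, hE, hmin⟩ := exists_min_image S card hS
  obtain ⟨-, hE1, hE2⟩ := mem_filter.1 hE
  have hne : E.Nonempty := by
    rw [nonempty_iff_ne_empty]
    rintro rfl
    exact hE2 0 (Nat.zero_le _) ⟨fun _ => Fin.elim0, fun _ => 0, by simp⟩
  obtain ⟨⟨a, b⟩, hab⟩ := hne
  have hlt : ¬ E.erase (a, b) ∈ S := by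
    intro hc
    have := hmin _ hc
    have := card_erase_lt_of_mem hab
    omega
  have : ∃ m ≤ t, Good (fun u v => (u, v) ∈ E.erase (a, b)) m := by
    by_contra hc
    push Not at hc
    exact hlt (mem_filter.2 ⟨mem_univ _, fun p hp => hE1 p (mem_of_mem_erase hp), hc⟩)
  obtain ⟨m, hm, hg⟩ := this
  have hg' : Good (fun u v => (u, v) ∈ E) (m + 1) := by
    refine good_step a b (fun u v h1 h2 => hasym u v (hE1 _ h1) (hE1 _ h2)) hab ?_ hg
    intro u v huv
    by_cases e : (u, v) = (a, b)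
    · exact Or.inr (Prod.mk.inj e)
    · exact Or.inl (mem_erase.2 ⟨e, huv⟩)
  have hmt : m = t := by
    by_contra hc
    exact hE2 (m + 1) (by omega) hg'
  subst hmt
  refine ⟨fun u v => (u, v) ∈ E, fun u v huv => hE1 _ huv, le_antisymm
    (Nat.sInf_le ((mem_invSet _ _).2 hg')) (le_csInf ⟨_, (mem_invSet _ _).2 hg'⟩ fun k hk => ?_)⟩
  by_contra hc
  exact hE2 k (by omega) ((mem_invSet _ _).1 hk)

lemma Tn_asym {n : ℕ} {A : Matrix (Fin n) (Fin n) F} (hA : A.IsSymm) (u v : Fin n)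
    (h : Tn A u v) : ¬ Tn A v u := by
  by_cases e : u = v
  · subst e; exact fun _ => Tn_irrefl A u h
  · exact (Tn_tour hA u v e).1 h

lemma Tn_lt {n : ℕ} {A : Matrix (Fin n) (Fin n) F} (hA : A.IsSymm) {u v : Fin n}
    (h : (Tn A u v ∧ A u v = 0) ∨ (Tn A v u ∧ A u v = 1)) : u.1 < v.1 := by
  have s : A v u = A u v := hA.apply u v
  unfold Tn at h
  rw [s] at h
  rcases h with ⟨h | h, e⟩ | ⟨h | h, e⟩
  · exact h.1
  · rw [e] at h; exact absurd h.2 zero_ne_one
  · rw [e] at h; exact absurd h.2 one_ne_zero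
  · exact h.1

lemma join_good {n : ℕ} (P R : Matrix (Fin n) (Fin n) F) (hPR : P * R = St n)
    (D : Fin 2 → Fin n → Fin n → Prop) (h0 : ∀ u v, D 0 u v → Tn (P * Pᵀ) u v)
    (h1 : ∀ u v, D 1 u v → Tn (Rᵀ * R) u v) :
    Good (fun u v : (Σ _ : Fin 2, Fin n) => u.1 < v.1 ∨ ∃ (i : Fin 2) (a b : Fin n),
            u = ⟨i, a⟩ ∧ v = ⟨i, b⟩ ∧ D i a b) n := by
  have hst : ∀ i j, ∑ k, P i k * R k j = if j ≤ i then 1 else 0 := fun i j => by
    have := congrFun (congrFun hPR i) j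
    rw [Matrix.mul_apply] at this
    exact this
  have s1 : (P * Pᵀ).IsSymm := Matrix.isSymm_mul_transpose_self P
  have s2 : (Rᵀ * R).IsSymm := Matrix.isSymm_transpose_mul_self R
  have key : ∀ (i : Fin 2) (u v : Fin n), (∃ (i' : Fin 2) (a b : Fin n),
      (⟨i, u⟩ : (Σ _ : Fin 2, Fin n)) = ⟨i', a⟩ ∧ (⟨i, v⟩ : (Σ _ : Fin 2, Fin n)) = ⟨i', b⟩ ∧
        D i' a b) → D i u v := by
    rintro i u v ⟨i', a, b, e1, e2, h⟩
    cases e1; cases e2; exact h
  have key2 : ∀ (i i2 : Fin 2) (u v : Fin n), (∃ (i' : Fin 2) (a b : Fin n),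
      (⟨i, u⟩ : (Σ _ : Fin 2, Fin n)) = ⟨i', a⟩ ∧ (⟨i2, v⟩ : (Σ _ : Fin 2, Fin n)) = ⟨i', b⟩ ∧
        D i' a b) → i = i2 := by
    rintro i i2 u v ⟨i', a, b, e1, e2, h⟩
    cases e1; cases e2; rfl
  refine ⟨fun w => if w.1 = 0 then P w.2 else Rᵀ w.2,
    fun w => if w.1 = 0 then 2 * w.2.1 + 1 else 2 * w.2.1, ?_⟩
  rintro ⟨i, u⟩ ⟨j, v⟩ h
  have hi : i = 0 ∨ i = 1 := by omega
  have hj : j = 0 ∨ j = 1 := by omega
  have z1 : ¬ ((1 : Fin 2) = 0) := by decide
  rcases hi with rfl | rfl <;> rcases hj with rfl | rfl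
  · simp only [lt_irrefl, false_or, if_true] at h ⊢
    have e : ∑ k, P u k * P v k = (P * Pᵀ) u v := by simp [mul_apply]
    rw [e] at h
    have := Tn_lt s1 (u := u) (v := v) (h.imp (fun h => ⟨h0 _ _ (key 0 _ _ h.1), h.2⟩)
      (fun h => ⟨h0 _ _ (key 0 _ _ h.1), h.2⟩))
    omega
  · simp only [if_true, if_neg z1, transpose_apply] at h ⊢
    rw [hst] at h
    rcases h with h | h
    · by_cases e : v ≤ u
      · simp [e] at h
      · have : u.1 < v.1 := not_le.1 e
        omega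
    · rcases h.1 with h' | h'
      · exact absurd h' (by decide)
      · exact absurd (key2 _ _ _ _ h') z1
  · simp only [if_true, if_neg z1, transpose_apply] at h ⊢
    have e : ∑ k, R k u * P v k = ∑ k, P v k * R k u :=
      Finset.sum_congr rfl fun k _ => mul_comm _ _
    rw [e, hst] at h
    rcases h with h | h
    · rcases h.1 with h' | h'
      · exact absurd h' (by decide)
      · exact absurd (key2 _ _ _ _ h') z1
    · by_cases e : u ≤ v
      · have : u.1 ≤ v.1 := e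
        omega
      · simp [e] at h
  · simp only [lt_irrefl, false_or, if_neg z1] at h ⊢
    have e : ∑ k, Rᵀ u k * Rᵀ v k = (Rᵀ * R) u v := by simp [mul_apply]
    rw [e] at h
    have := Tn_lt s2 (u := u) (v := v) (h.imp (fun h => ⟨h1 _ _ (key 1 _ _ h.1), h.2⟩)
      (fun h => ⟨h1 _ _ (key 1 _ _ h.1), h.2⟩))
    omega

theorem exists_counter : ∃ (n : ℕ) (D : Fin 2 → Fin n → Fin n → Prop),
    (∀ i u v, D i u v → ¬ D i v u) ∧ (∀ i, sInf (InvSet (D i)) = 42) ∧
    sInf (InvSet (fun u v : (Σ _ : Fin 2, Fin n) => u.1 < v.1 ∨ ∃ (i : Fin 2) (a b : Fin n),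
            u = ⟨i, a⟩ ∧ v = ⟨i, b⟩ ∧ D i a b)) ≤ 80 := by
  obtain ⟨P, R, hPR, h1, h2⟩ := exists_pair80
  have s1 : (P * Pᵀ).IsSymm := Matrix.isSymm_mul_transpose_self P
  have s2 : (Rᵀ * R).IsSymm := Matrix.isSymm_transpose_mul_self R
  obtain ⟨D0, a0, b0⟩ := exists_sub (t := 41) (Tn_asym s1)
    (fun m hm hg => h1 (bad_of_good s1 hg hm))
  obtain ⟨D1, a1, b1⟩ := exists_sub (t := 41) (Tn_asym s2)
    (fun m hm hg => h2 (bad_of_good s2 hg hm))
  refine ⟨80, ![D0, D1], ?_, ?_, Nat.sInf_le ((mem_invSet _ _).2 (join_good P R hPR _ a0 a1))⟩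
  · rw [Fin.forall_fin_two]
    exact ⟨fun u v h h' => Tn_asym s1 u v (a0 _ _ h) (a0 _ _ h'),
      fun u v h h' => Tn_asym s2 u v (a1 _ _ h) (a1 _ _ h')⟩
  · rw [Fin.forall_fin_two]
    exact ⟨b0, b1⟩

end Pool.Agent.H18.Tmr
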