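import Pool.Agent.H18.Tmr.Count

set_option autoImplicit false

namespace Pool.Agent.H18.Tmr

open Matrix Finset

/-- unit lower triangular -/
def UL {ι : Type} [LinearOrder ι] (P : Matrix ι ι F) : Prop :=
  (∀ i, P i i = 1) ∧ ∀ i j, i < j → P i j = 0

lemma UL_inj {ι : Type} [Fintype ι] [LinearOrder ι] {P Q : Matrix ι ι F} (hP : UL P) (hQ : UL Q)
    (h : ∀ u v, u < v → (P * Pᵀ) u v = (Q * Qᵀ) u v) : P = Q := by
  classical
  have key : ∀ j i, P i j = Q i j := by
    intro j
    induction j using WellFoundedLT.induction with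
    | ind j ih =>
      intro i
      rcases lt_trichotomy i j with hij | hij | hij
      · rw [hP.2 i j hij, hQ.2 i j hij]
      · subst hij; rw [hP.1, hQ.1]
      · have := h j i hij
        simp only [mul_apply, transpose_apply] at this
        rw [← Finset.add_sum_erase _ _ (mem_univ j), ← Finset.add_sum_erase _ _ (mem_univ j),
          hP.1, hQ.1, one_mul, one_mul] at this
        have e : ∑ k ∈ univ.erase j, P j k * P i k = ∑ k ∈ univ.erase j, Q j k * Q i k := by
          refine Finset.sum_congr rfl fun k hk => ?_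
          rcases lt_or_gt_of_ne (ne_of_mem_erase hk) with hk | hk
          · rw [ih k hk, ih k hk]
          · rw [hP.2 j k hk, hQ.2 j k hk, zero_mul, zero_mul]
        rw [e] at this
        exact add_right_cancel this
  ext i j
  exact key j i

lemma UL_inj' {n : ℕ} {P Q : Matrix (Fin n) (Fin n) F} (hP : UL P) (hQ : UL Q)
    (h : ∀ u v, u < v → (Pᵀ * P) u v = (Qᵀ * Q) u v) : P = Q := by
  have := UL_inj (ι := (Fin n)ᵒᵈ) (P := Pᵀ) (Q := Qᵀ)
    ⟨fun i => hP.1 i, fun i j hij => hP.2 j i hij⟩ ⟨fun i => hQ.1 i, fun i j hij => hQ.2 j i hij⟩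
    (fun u v huv => by
      have := h v u huv
      simp only [mul_apply, transpose_apply] at this ⊢
      calc _ = ∑ k : Fin n, P k v * P k u := Finset.sum_congr rfl fun k _ => mul_comm _ _
        _ = ∑ k : Fin n, Q k v * Q k u := this
        _ = _ := Finset.sum_congr rfl fun k _ => mul_comm _ _)
  exact transpose_injective this

/-- the staircase matrix -/
def St (n : ℕ) : Matrix (Fin n) (Fin n) F := fun i j => if j ≤ i then 1 else 0

lemma UL_det {n : ℕ} {P : Matrix (Fin n) (Fin n) F} (hP : UL P) : P.det = 1 := by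
  rw [det_of_isLowerTriangular P (fun i j hij => hP.2 i j hij)]
  simp [hP.1]

lemma exists_R {n : ℕ} {P : Matrix (Fin n) (Fin n) F} (hP : UL P) :
    ∃ R, UL R ∧ P * R = St n := by
  have hu : IsUnit P.det := by rw [UL_det hP]; exact isUnit_one
  let _ : Invertible P := invertibleOfIsUnitDet P hu
  have h1 : BlockTriangular P OrderDual.toDual := fun i j hij => hP.2 i j hij
  have h2 : BlockTriangular (St n) OrderDual.toDual := fun i j hij => by
    have : i < j := hij
    simp [St, not_le_of_gt this]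
  have h3 := (blockTriangular_inv_of_blockTriangular h1).mul h2
  have h4 : P * (P⁻¹ * St n) = St n := by rw [mul_inv_cancel_left_of_invertible]
  refine ⟨P⁻¹ * St n, ⟨fun i => ?_, fun i j hij => h3 hij⟩, h4⟩
  have := congrFun (congrFun h4 i) i
  rw [mul_apply, Finset.sum_eq_single i, hP.1, one_mul] at this
  · rw [this]; simp [St]
  · intro k _ hk
    rcases lt_or_gt_of_ne hk with hk | hk
    · rw [h3 (show OrderDual.toDual i < OrderDual.toDual k from hk), mul_zero]
    · rw [hP.2 i k hk, zero_mul]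
  · simp

lemma card_UL (n : ℕ) [DecidablePred (UL (ι := Fin n))] :
    2 ^ n.choose 2 ≤ (univ.filter (UL (ι := Fin n))).card := by
  classical
  let Pr : Finset (Fin n × Fin n) := filter (fun x : Fin n × Fin n => x.1 < x.2) (univ ×ˢ univ)
  have h1 : Pr.card = n.choose 2 := by
    have := Finset.card_product_filter_lt (s := (univ : Finset (Fin n)))
    rw [card_univ, Fintype.card_fin] at this
    exact this
  have hcard : (univ : Finset (Pr → F)).card = 2 ^ Pr.card := by simp [F]
  rw [← h1, ← hcard]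
  apply card_le_card_of_injOn (fun (x : Pr → F) => (fun i j =>
    if h : j < i then x ⟨(j, i), by simp [Pr, h]⟩ else if i = j then 1 else 0 :
      Matrix (Fin n) (Fin n) F))
  · intro x _
    refine mem_coe.2 (mem_filter.2 ⟨mem_univ _, fun i => by simp, fun i j hij => ?_⟩)
    simp [not_lt_of_gt hij, hij.ne]
  · intro x _ y _ hxy
    funext p
    have hp : p.1.1 < p.1.2 := (mem_filter.1 p.2).2
    have := congrFun (congrFun hxy p.1.2) p.1.1
    simpa [hp] using this

theorem exists_pair {n t : ℕ}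
    (hn : 2 * ((n + 1) ^ n * 2 ^ n * 2 ^ n * 2 ^ (n.choose 2 - (n - t).choose 2))
      < 2 ^ n.choose 2) :
    ∃ P R : Matrix (Fin n) (Fin n) F, P * R = St n ∧ ¬ Bad t (P * Pᵀ) ∧ ¬ Bad t (Rᵀ * R) := by
  classical
  by_contra hcon
  push Not at hcon
  have hR : ∀ P : Matrix (Fin n) (Fin n) F, UL P → ∃ R, UL R ∧ P * R = St n :=
    fun P hP => exists_R hP
  choose! R hR1 hR2 using hR
  let G := univ.filter (UL (ι := Fin n))
  let S1 := G.filter fun P => Bad t (P * Pᵀ)
  let S2 := G.filter fun P => Bad t ((R P)ᵀ * R P)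
  have hG : ∀ P ∈ G, UL P := fun P hP => (mem_filter.1 hP).2
  have c1 := card_bad (t := t) S1 (fun P => P * Pᵀ) (fun P _ => isSymm_mul_transpose_self P)
    (fun P hP => (mem_filter.1 hP).2)
    (fun P hP Q hQ h => UL_inj (hG P (mem_filter.1 hP).1) (hG Q (mem_filter.1 hQ).1) h)
  have c2 := card_bad (t := t) S2 (fun P => (R P)ᵀ * R P)
    (fun P _ => isSymm_transpose_mul_self _)
    (fun P hP => (mem_filter.1 hP).2)
    (fun P hP Q hQ h => by
      have hP' := hG P (mem_filter.1 hP).1
      have hQ' := hG Q (mem_filter.1 hQ).1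
      have e := UL_inj' (hR1 P hP') (hR1 Q hQ') h
      have hu : IsUnit (R Q).det := by rw [UL_det (hR1 Q hQ')]; exact isUnit_one
      have e2 : P * R Q = Q * R Q := by rw [hR2 Q hQ', ← e, hR2 P hP']
      let _ : Invertible (R Q) := invertibleOfIsUnitDet _ hu
      have := congrArg (· * (R Q)⁻¹) e2
      simpa using this)
  have c3 : G ⊆ S1 ∪ S2 := by
    intro P hP
    rw [mem_union]
    by_cases h : Bad t (P * Pᵀ)
    · exact Or.inl (mem_filter.2 ⟨hP, h⟩)
    · exact Or.inr (mem_filter.2 ⟨hP, hcon P (R P) (hR2 P (hG P hP)) h⟩)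
  have c4 := (card_le_card c3).trans (card_union_le _ _)
  have c5 := card_UL n
  change _ ≤ G.card at c5
  omega

theorem exists_pair80 :
    ∃ P R : Matrix (Fin 80) (Fin 80) F, P * R = St 80 ∧ ¬ Bad 41 (P * Pᵀ) ∧ ¬ Bad 41 (Rᵀ * R) :=
  exists_pair (by
    rw [Nat.choose_two_right, Nat.choose_two_right]
    decide +kernel)

end Pool.Agent.H18.Tmr
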